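import Pool.Agent.Lib.MP_264509_pr.MalModel

open MeasureTheory ProbabilityTheory Filter Set Topology
open Pool.Agent.Lib.MP_264509_pr

namespace Pool.Agent.Results.MP_264509_pr.LocalLimit

lemma prob_eq {n : ℕ} (w : Equiv.Perm (Fin n) → ℝ) (A : Set (Equiv.Perm (Fin n))) :
    prob w A = ∑ π, A.indicator (fun π => w π / ∑ π', w π') π := by
  classical
  unfold prob
  rw [Finset.sum_div]
  apply Finset.sum_congr rfl
  intro π _
  by_cases h : π ∈ A
  · rw [indicator_of_mem h, indicator_of_mem h]
  · rw [indicator_of_notMem h, indicator_of_notMem h, zero_div]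

lemma of_model {w : ∀ n, Equiv.Perm (Fin n) → ℝ} {ρ : Lab → ℝ → ℝ} {ν : ℤ → Measure ℝ}
    {γ : Measure ℝ} (H : Model (fun n π => w n π / ∑ π', w n π') ρ) (D : Dens ρ ν γ) :
    IsLocalWeakLimit w (limitLaw ν γ) := by
  obtain ⟨hprob, -⟩ := null_words H D 0
  refine ⟨hprob, ae_ball_finite D.goodInt, fun r m G g => ⟨limit_event H D r G g, ?_⟩⟩
  simp only [prob_eq]
  exact local_limit H D r G g

/-- The local weak limit of the fixed point forest whose root has the Ewens distribution with
parameter `θ`, and of the one whose root has the Mallows distribution with parameter `q n`,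
`n (1 - q n) → β`. -/
theorem result :
    (∀ θ : ℝ, 0 < θ → IsLocalWeakLimit (ewensWeight θ) (ewensLimit θ)) ∧
    ∀ (β : ℝ) (q : ℕ → ℝ), (∀ n, 0 < q n) →
      Tendsto (fun n : ℕ => (n : ℝ) * (1 - q n)) atTop (𝓝 β) →
      IsLocalWeakLimit (fun n => mallowsWeight (q n) n) (mallowsLimit β) :=
  ⟨fun _ hθ => of_model (ewens_model hθ) (ewens_dens hθ),
    fun β _ hq hlim => of_model (mallows_model hq hlim) (mallows_dens β)⟩

end Pool.Agent.Results.MP_264509_pr.LocalLimit
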